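import Pool.Agent.MP_c650be_lc.Defs
import Pool.Agent.MP_c650be_lc.Mg.Main

namespace Pool.Agent.Results.MP_c650be_lc.NoReflection

open Cardinal Pool.Agent.MP_c650be_lc

universe u

/-- If `κ < λ` are uncountable cardinals, `λ` is regular and `□(λ, <κ)` holds, then
`Refl(<κ, S)` fails for every stationary `S ⊆ λ`. -/
theorem result (κ lam : Cardinal.{u}) (hκ0 : ℵ₀ < κ) (hκ : κ < lam) (hreg : lam.IsRegular)
    (hsq : Square lam.ord κ) (S : Set Ordinal.{u}) (_hS1 : S ⊆ Set.Iio lam.ord)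
    (hS2 : StatIn S lam.ord) : ¬ Refl lam.ord κ S :=
  fun hR => let ⟨_, hcoh, hno⟩ := hsq; hno (thread_of_refl hκ0 hκ hreg hcoh hS2 hR)

end Pool.Agent.Results.MP_c650be_lc.NoReflection
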